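import Pool.Agent.L5helper1.SI.Short

/-!
# Arbitrary sets of translates of the primes in the intervals `(x, x + √x)`

Let `T₀ ≤ T ≤ (log x) / 4`. For every set `B` of at most `log x log T / (2000 (D + 7))` integers of absolute
value at most `exp ((log x) ^ D)` there are at least `√x exp (- T)` integers `n` with `x < n < x + √x` such that
each `n + b`, `b ∈ B`, has a prime factor at most `x ^ δ`. For `T` constant this is a positive proportion of
the integers of every interval `(x, x + √x)`, for sets of `lam * log x` shifts with `lam` arbitrary; with `B` an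
interval one gets points far from all primes.

Consequence: if `A` is a set of natural numbers with at most `log x log T / 20000` elements up to `2 x`, then at
least `√x exp (- T) / 2` of the natural numbers between `x` and `x + √x` are not of the form `p + a`.
-/

set_option autoImplicit false

namespace Pool.Agent.Results.MP_b8a134_nt.ArbitraryTranslates

theorem result :
    (∀ D δ : ℝ, 0 < D → 0 < δ → ∃ T₀ x₀ : ℝ, ∀ x : ℝ, x₀ ≤ x →
      ∀ T : ℝ, T₀ ≤ T → T ≤ Real.log x / 4 →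
      ∀ B : Finset ℤ, (B.card : ℝ) ≤ Real.log x * Real.log T / (2000 * (D + 7)) →
      (∀ b ∈ B, |(b : ℝ)| ≤ Real.exp ((Real.log x) ^ D)) →
      Real.sqrt x * Real.exp (-T) ≤ ({n : ℤ | x < (n : ℝ) ∧ (n : ℝ) < x + Real.sqrt x ∧
        ∀ b ∈ B, ∃ p : ℕ, p.Prime ∧ (p : ℝ) ≤ x ^ δ ∧ (p : ℤ) ∣ n + b}.ncard : ℝ)) ∧
    (∃ T₀ x₀ : ℝ, ∀ x : ℝ, x₀ ≤ x → ∀ T : ℝ, T₀ ≤ T → T ≤ Real.log x / 4 →
      ∀ A : Set ℕ, ((A ∩ {a : ℕ | (a : ℝ) ≤ 2 * x}).ncard : ℝ) ≤ Real.log x * Real.log T / 20000 →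
      Real.sqrt x * Real.exp (-T) / 2 ≤
        ({n : ℕ | x < (n : ℝ) ∧ (n : ℝ) < x + Real.sqrt x ∧
          ¬ ∃ p a : ℕ, p.Prime ∧ a ∈ A ∧ n = p + a}.ncard : ℝ)) := by
  refine ⟨fun D δ hD hδ => ?_, Pool.Agent.L5helper1.SI.short₂⟩
  obtain ⟨T₀, x₀, h⟩ := Pool.Agent.L5helper1.SI.short₁ D δ hD hδ
  exact ⟨T₀, x₀, fun x hx => (h x hx).2.2⟩

end Pool.Agent.Results.MP_b8a134_nt.ArbitraryTranslates
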