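import Mathlib
import Pool.Agent.L5helper4.G2.Win
import Pool.Agent.X34.E.E4

set_option autoImplicit false

/-!
# Consecutive primes at distance at most 212 between `n` and `n + √n`, for a positive proportion of the `n`

For every `0 < θ ≤ 1`, for instance `θ = 1 / 2`, and a positive proportion of the integers `n`, the interval
`(n, n + n ^ θ)` contains at least `c n ^ θ / (log n) ^ 45` pairs of CONSECUTIVE primes with one and the same
difference `h ≤ 212`; the same for the primes of a residue class `a` modulo `q`, with `h = j lcm (2, q)`, `j ≤ 106`.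
-/

open Finset Filter

namespace Pool.Agent.Results.MP_b8a134_nt.GapsAtMost212

/-- `p ≡ a (mod q)` is a prime and the next prime is `p + h` -/
def Starts (q a h p : ℕ) : Prop :=
  p ≡ a [MOD q] ∧ p.Prime ∧ (p + h).Prime ∧ ∀ m, p < m → m < p + h → ¬ m.Prime

/-- the number of the primes `p ≡ a (mod q)` for which `p` and the next prime `p + h` lie in `(n, n + n ^ θ)` -/
noncomputable def pairs (θ : ℝ) (q a h n : ℕ) : ℕ :=
  Set.ncard {p : ℕ | n < p ∧ ((p + h : ℕ) : ℝ) < n + (n : ℝ) ^ θ ∧ Starts q a h p}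

/-- the number of the `1 ≤ n ≤ x` with at least `c n ^ θ / (log n) ^ 45` such primes -/
noncomputable def good (c θ : ℝ) (q a h x : ℕ) : ℕ :=
  Set.ncard {n : ℕ | 1 ≤ n ∧ n ≤ x ∧ c * (n : ℝ) ^ θ / Real.log n ^ 45 ≤ (pairs θ q a h n : ℝ)}

/-- For all `0 < θ ≤ 1`, `q ≥ 1` and `a` prime to `q` there is `c > 0` such that for all large `x` there is
`1 ≤ j ≤ 106` such that for at least `c x` of the `n ≤ x` the interval `(n, n + n ^ θ)` contains at least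
`c n ^ θ / (log n) ^ 45` primes `p ≡ a (mod q)` together with the next prime, which is `p + j lcm (2, q)`. One `j` has
this property for arbitrarily large `x`. -/
theorem result (θ : ℝ) (hθ : 0 < θ) (hθ1 : θ ≤ 1) (q a : ℕ) (hq : 1 ≤ q) (ha : a.Coprime q) :
    ∃ c : ℝ, 0 < c ∧
      (∀ᶠ x : ℕ in atTop, ∃ j : ℕ, 1 ≤ j ∧ j ≤ 106 ∧ c * x ≤ (good c θ q a (j * Nat.lcm 2 q) x : ℝ)) ∧
      ∃ j : ℕ, 1 ≤ j ∧ j ≤ 106 ∧ ∃ᶠ x : ℕ in atTop, c * x ≤ (good c θ q a (j * Nat.lcm 2 q) x : ℝ) := by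
  obtain ⟨a', ha1, ha2⟩ := Pool.Agent.X34.E.lift_class q a hq ha
  have hM0 : 0 < Nat.lcm 2 q := Nat.lcm_pos (by norm_num) hq
  have hM2 : 2 ∣ Nat.lcm 2 q := Nat.dvd_lcm_left 2 q
  have hMq : q ∣ Nat.lcm 2 q := Nat.dvd_lcm_right 2 q
  obtain ⟨c, hc, h⟩ := Pool.Agent.L5helper4.G2.windows Pool.Agent.X34.E.dhl45R θ hθ hθ1 (Nat.lcm 2 q) a' hM0 ha2
    Pool.Agent.X34.E.G45 Pool.Agent.X34.E.G45_card
    (fun p hp hpM => Pool.Agent.X34.E.G45_adm p hp (fun h2 => hpM (h2 ▸ hM2)))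
  obtain ⟨c', hc'⟩ : ∃ c' : ℝ, c' = c / 4 := ⟨_, rfl⟩
  have hc'0 : 0 < c' := by rw [hc']; positivity
  have hcc : c' ≤ c := by rw [hc']; linarith
  have ht3 : Tendsto (fun x : ℕ => x / 3) atTop atTop := Nat.tendsto_div_const_atTop (by norm_num)
  have hall : ∀ᶠ x : ℕ in atTop, ∃ j : ℕ, 1 ≤ j ∧ j ≤ 106 ∧
      c' * x ≤ (good c' θ q a (j * Nat.lcm 2 q) x : ℝ) := by
    filter_upwards [ht3.eventually h, eventually_ge_atTop 12] with x hx hx3
    obtain ⟨g, hg, g', hg', hgg, hx⟩ := hx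
    have h106 := Pool.Agent.X34.E.G45_le g' hg'
    refine ⟨g' - g, by omega, by omega, ?_⟩
    obtain ⟨h, hh⟩ : ∃ h, h = (g' - g) * Nat.lcm 2 q := ⟨_, rfl⟩
    rw [← hh] at hx ⊢
    obtain ⟨Z, hZ⟩ : ∃ Z, Z = x / 3 := ⟨_, rfl⟩
    rw [← hZ] at hx
    have hZx : (x : ℝ) / 4 ≤ Z := by
      have : x ≤ 4 * Z := by omega
      have : (x : ℝ) ≤ 4 * Z := by exact_mod_cast this
      linarith
    have h1 : c' * x ≤ c * Z := by
      rw [hc']
      have := mul_le_mul_of_nonneg_left hZx hc.le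
      linarith
    refine h1.trans (hx.trans ?_)
    rw [Nat.cast_le]
    unfold good
    refine Set.ncard_le_ncard (fun m hm => ?_) ((Set.finite_Iic x).subset fun k hk => hk.2.1)
    obtain ⟨hm1, hm2, hm3⟩ := hm
    refine ⟨by omega, by omega, ?_⟩
    have hsub : Set.ncard {p : ℕ | m < p ∧ ((p + h : ℕ) : ℝ) < m + (m : ℝ) ^ θ ∧
        Pool.Agent.X34.E.Follow (Nat.lcm 2 q) a' h p} ≤ pairs θ q a h m := by
      unfold pairs
      refine Set.ncard_le_ncard (fun p hp => ⟨hp.1, hp.2.1, (hp.2.2.1.of_dvd hMq).trans ha1, hp.2.2.2⟩)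
        ((Set.finite_Iio (m + ⌈(m : ℝ) ^ θ⌉₊)).subset fun p hp => ?_)
      rw [Set.mem_Iio]
      have e7 : ((p + h : ℕ) : ℝ) < m + (m : ℝ) ^ θ := hp.2.1
      have e8 : (m : ℝ) ^ θ ≤ (⌈(m : ℝ) ^ θ⌉₊ : ℕ) := Nat.le_ceil _
      have e9 : ((p + h : ℕ) : ℝ) < ((m + ⌈(m : ℝ) ^ θ⌉₊ : ℕ) : ℝ) := by push_cast at e7 ⊢; linarith
      have e10 : p + h < m + ⌈(m : ℝ) ^ θ⌉₊ := by exact_mod_cast e9
      omega
    have hsub' : (Set.ncard {p : ℕ | m < p ∧ ((p + h : ℕ) : ℝ) < m + (m : ℝ) ^ θ ∧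
        Pool.Agent.X34.E.Follow (Nat.lcm 2 q) a' h p} : ℝ) ≤ (pairs θ q a h m : ℝ) := by exact_mod_cast hsub
    refine le_trans ?_ (hm3.trans hsub')
    have hm1r : (1 : ℝ) ≤ m := by exact_mod_cast (by omega : 1 ≤ m)
    have hl : 0 ≤ Real.log (m : ℝ) := Real.log_nonneg hm1r
    apply div_le_div_of_nonneg_right _ (by positivity)
    exact mul_le_mul_of_nonneg_right hcc (by positivity)
  refine ⟨c', hc'0, hall, ?_⟩
  by_contra hcon
  push Not at hcon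
  have h2 : ∀ j ∈ Icc 1 106, ∀ᶠ x : ℕ in atTop, ¬ c' * x ≤ (good c' θ q a (j * Nat.lcm 2 q) x : ℝ) := by
    intro j hj
    rw [mem_Icc] at hj
    have h3 := hcon j hj.1 hj.2
    filter_upwards [h3] with x hx
    exact not_le.2 hx
  have h3 := (Filter.eventually_all_finset _).2 h2
  obtain ⟨x, hx1, hx2⟩ := (hall.and h3).exists
  obtain ⟨j, hj1, hj2, hj3⟩ := hx1
  exact hx2 j (mem_Icc.2 ⟨hj1, hj2⟩) hj3

end Pool.Agent.Results.MP_b8a134_nt.GapsAtMost212
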