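import Pool.Agent.L5helper4.DL.Int
import Pool.Agent.L5helper4.DL.Win

/-!
# Between `x` and `x + √x`: popular differences of almost primes and of dense sets of primes

Schinzel asks for a prime in every interval `(x, x + √x)`, `x ≥ 117`; the expected number is about `√x / log x`, and
one expects `≍ √x / (log x) ^ m` integers `n` in the interval for which the `m` numbers `n + j d` are primes of it.

1. (Relative theorem.) Let `0 < θ ≤ 1` and let `P` be ANY set of at least `δ x ^ θ / log x` integers of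
`(x, x + x ^ θ)` without prime factors `< x ^ κ`, for instance primes. Then for EVERY `D` between `(log x) ^ B` and
`x ^ θ / (log x) ^ B` at least `c D` of the differences `d ≤ D` have the property that ALL the parts `F ∋ 0` of the
progression `0, 1, …, k - 1` occur in `P` with the difference `d` at least `c x ^ θ / (log x) ^ |F|` times.

2. This holds in EVERY interval `(x, x + √x)`, `x` large, for the integers with at most three prime factors, all of
them at least `x ^ (1/9)`.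

3. It holds in every interval `(x, x + x ^ θ)`, `x` large, for the integers with at most `r > 1/8 + 25/(24 θ)` prime
factors, all of them at least `x ^ (2 θ / 9)`.

Method. A sieve majorant for the set in windows of length `D` (`Pool.Agent.Y843.HS`, helper843 and others), the
relative Szemerédi theorem of Conlon, Fox and Zhao (`Pool.Agent.Y727.PSP`, helper727 and others), and, for the
differences and the parts of the progression, `Pool.Agent.L5helper4.DL`. The lower bounds for the numbers of the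
almost primes come from the weighted linear sieve of helper882 (`Pool.Agent.Y882.KW`).
-/

set_option autoImplicit false

namespace Pool.Agent.Results.MP_b8a134_nt.PopularDifferences

open Finset Filter

open Classical in
/-- the integers `n` with `x < n < x + y` -/
noncomputable def between (x y : ℝ) : Finset ℕ :=
  (range (⌈x + y⌉₊ + 1)).filter (fun n => x < (n : ℝ) ∧ (n : ℝ) < x + y)

open Classical in
/-- the integers `n` with `x < n < x + y` which have at most `r` prime factors (with multiplicity), all of them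
at least `w` -/
noncomputable def almost (r : ℕ) (w x y : ℝ) : Finset ℕ :=
  (between x y).filter (fun n => n.primeFactorsList.length ≤ r ∧ ∀ q : ℕ, q.Prime → q ∣ n → w ≤ q)

open Classical in
/-- the number of the elements `n` of `P` such that `n + j d` is in `P` for all `j ∈ F` -/
noncomputable def occurrences (P : Finset ℕ) (F : Finset ℕ) (d : ℕ) : ℕ :=
  (P.filter (fun n => ∀ j ∈ F, n + j * d ∈ P)).card

open Classical in
/-- For all `D` between `(log x) ^ B` and `y / (log x) ^ B` at least `c D` of the `1 ≤ d ≤ D` are such that for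
every `F ⊆ {0, …, k - 1}` with `0 ∈ F` at least `c y / (log x) ^ |F|` elements `n` of `P` are such that
`n + j d` is in `P` for all `j ∈ F`. -/
def Popular (k B : ℕ) (c x y : ℝ) (P : Finset ℕ) : Prop :=
  ∀ D : ℕ, Real.log x ^ B ≤ D → D * Real.log x ^ B ≤ y →
    c * D ≤ (((Icc 1 D).filter (fun d => ∀ F ⊆ range k, 0 ∈ F →
      c * (y / Real.log x ^ F.card) ≤ (occurrences P F d : ℝ))).card : ℝ)

lemma mem_between {x y : ℝ} {n : ℕ} : n ∈ between x y ↔ x < (n : ℝ) ∧ (n : ℝ) < x + y := by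
  unfold between
  rw [mem_filter, mem_range]
  constructor
  · exact fun h => h.2
  · rintro ⟨h1, h2⟩
    refine ⟨?_, h1, h2⟩
    have : (n : ℝ) ≤ ⌈x + y⌉₊ := h2.le.trans (Nat.le_ceil _)
    have h3 : n ≤ ⌈x + y⌉₊ := by exact_mod_cast this
    omega

lemma sys : Pool.Agent.W123.RU.Poly.Sys (fun _ : Fin 1 => (Polynomial.X : Polynomial ℤ)) where
  irr _ := Polynomial.irreducible_X
  deg _ := by
    rw [Polynomial.natDegree_X]
    norm_num
  lead _ := by
    rw [Polynomial.leadingCoeff_X]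
    norm_num
  inj _ _ _ := Subsingleton.elim _ _
  adm p hp := by
    refine ⟨1, fun _ h => ?_⟩
    rw [Polynomial.eval_X] at h
    exact hp.one_lt.ne' (Nat.dvd_one.1 (by exact_mod_cast h))

/-- the relative theorem -/
theorem rel (k : ℕ) (θ κ δ : ℝ) (hθ : 0 < θ) (hθ1 : θ ≤ 1) (hκ : 0 < κ) (hδ : 0 < δ) :
    ∃ (B : ℕ) (c : ℝ), 0 < c ∧ ∀ᶠ x : ℝ in atTop, ∀ P ⊆ between x (x ^ θ),
      (∀ n ∈ P, ∀ q : ℕ, q.Prime → q ∣ n → x ^ κ ≤ q) →
      δ * (x ^ θ / Real.log x) ≤ P.card → Popular k B c x (x ^ θ) P := by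
  classical
  obtain ⟨κ', hκ'0, hκ'1, hκ'2⟩ : ∃ κ' : ℝ, 0 < κ' ∧ κ' ≤ κ / 2 ∧ κ' ≤ 1 :=
    ⟨min (κ / 2) 1, lt_min (by positivity) one_pos, min_le_left _ _, min_le_right _ _⟩
  obtain ⟨B, H₀, c, hc, hrel⟩ := Pool.Agent.L5helper4.DL.polyWin
    (fun _ : Fin 1 => (Polynomial.X : Polynomial ℤ)) sys k κ' (δ * (θ / 2)) hκ'0 hκ'2 (by positivity)
  simp only [Fintype.card_fin, one_mul, pow_one] at hrel
  have h2k : (1 : ℝ) ≤ 2 ^ k := one_le_pow₀ (by norm_num)
  refine ⟨B + 1, c / 2 ^ k, by positivity, ?_⟩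
  have tθ : Tendsto (fun x : ℝ => x ^ θ) atTop atTop := tendsto_rpow_atTop hθ
  have tH : Tendsto (fun x : ℝ => ⌊x ^ θ⌋₊ + 1) atTop atTop :=
    (tendsto_add_atTop_nat 1).comp (tendsto_nat_floor_atTop.comp tθ)
  filter_upwards [eventually_gt_atTop (3 : ℝ), tθ.eventually_ge_atTop 3, tH.eventually_ge_atTop H₀,
    Real.tendsto_log_atTop.eventually_ge_atTop (2 ^ B)] with x hx3 hy3 hH0 hlB
  intro P hP hrough hcard D hD1 hD2
  obtain ⟨y, hy⟩ : ∃ y, y = x ^ θ := ⟨_, rfl⟩
  rw [← hy] at hP hcard hD2 hy3 hH0 ⊢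
  have hx0 : 0 < x := by linarith
  have hx1 : 1 < x := by linarith
  have hlx : 0 < Real.log x := Real.log_pos hx1
  have hlx1 : 1 ≤ Real.log x := le_trans (one_le_pow₀ (by norm_num)) hlB
  have hy0 : 0 < y := by linarith
  have hyx : y ≤ x := by
    rw [hy]
    calc x ^ θ ≤ x ^ (1 : ℝ) := Real.rpow_le_rpow_of_exponent_le hx1.le hθ1
      _ = x := Real.rpow_one _
  obtain ⟨H, hH⟩ : ∃ H, H = ⌊y⌋₊ + 1 := ⟨_, rfl⟩
  rw [← hH] at hH0
  have hfl : (⌊y⌋₊ : ℝ) ≤ y := Nat.floor_le hy0.le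
  have hfl2 : y < (⌊y⌋₊ : ℝ) + 1 := Nat.lt_floor_add_one y
  have hHr : (H : ℝ) = ⌊y⌋₊ + 1 := by rw [hH]; push_cast; ring
  have hHy : y ≤ H := by linarith
  have hH2y : (H : ℝ) ≤ 2 * y := by linarith
  have hH2x : (H : ℝ) ≤ x ^ 2 := by nlinarith
  have hH1 : (1 : ℝ) ≤ H := by linarith
  have hHp : (0 : ℝ) < H := by linarith
  have hlH0 : 0 < Real.log H := Real.log_pos (by linarith)
  have hlH1 : Real.log H ≤ 2 * Real.log x := by
    have := Real.log_le_log hHp hH2x
    rw [Real.log_pow] at this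
    exact_mod_cast this
  have hlH2 : θ * Real.log x ≤ Real.log H := by
    rw [← Real.log_rpow hx0, ← hy]
    exact Real.log_le_log hy0 hHy
  have hsub : P ⊆ Ioc ⌊x⌋₊ (⌊x⌋₊ + H) := by
    intro n hn
    obtain ⟨h1, h2⟩ := mem_between.1 (hP hn)
    rw [mem_Ioc]
    constructor
    · exact (Nat.floor_lt hx0.le).2 h1
    · have h3 : x < (⌊x⌋₊ : ℝ) + 1 := Nat.lt_floor_add_one x
      have h4 : (n : ℝ) < ((⌊x⌋₊ + H + 1 : ℕ) : ℝ) := by
        push_cast
        rw [hHr]
        linarith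
      have h5 : n < ⌊x⌋₊ + H + 1 := by exact_mod_cast h4
      omega
  have key := hrel H ⌊x⌋₊ hH0 P hsub (by
    intro n hn _ q hq hd
    rw [Polynomial.eval_X] at hd
    refine lt_of_lt_of_le ?_ (hrough n hn q hq (by exact_mod_cast hd))
    calc (H : ℝ) ^ κ' ≤ (H : ℝ) ^ (κ / 2) := Real.rpow_le_rpow_of_exponent_le hH1 hκ'1
      _ ≤ (2 * x) ^ (κ / 2) := Real.rpow_le_rpow hHp.le (by linarith) (by linarith)
      _ < (x ^ (2 : ℝ)) ^ (κ / 2) := by
          apply Real.rpow_lt_rpow (by linarith) _ (by linarith)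
          rw [Real.rpow_two]
          nlinarith
      _ = x ^ κ := by
          rw [← Real.rpow_mul hx0.le]
          congr 1
          ring) (by
    refine le_trans ?_ hcard
    calc δ * (θ / 2) * (H / Real.log H) ≤ δ * (θ / 2) * (2 * y / (θ * Real.log x)) := by gcongr
      _ = δ * (y / Real.log x) := by field_simp) D (by
    refine le_trans ?_ hD1
    calc Real.log H ^ B ≤ (2 * Real.log x) ^ B := pow_le_pow_left₀ hlH0.le hlH1 B
      _ = 2 ^ B * Real.log x ^ B := mul_pow _ _ _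
      _ ≤ Real.log x * Real.log x ^ B := by gcongr
      _ = Real.log x ^ (B + 1) := by ring) (by
    refine le_trans ?_ (hD2.trans hHy)
    apply mul_le_mul_of_nonneg_left _ (Nat.cast_nonneg _)
    calc Real.log H ^ B ≤ (2 * Real.log x) ^ B := pow_le_pow_left₀ hlH0.le hlH1 B
      _ = 2 ^ B * Real.log x ^ B := mul_pow _ _ _
      _ ≤ Real.log x * Real.log x ^ B := by gcongr
      _ = Real.log x ^ (B + 1) := by ring)
  calc c / 2 ^ k * D ≤ c * D := by
        apply mul_le_mul_of_nonneg_right _ (Nat.cast_nonneg _)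
        exact div_le_self hc.le h2k
    _ ≤ _ := key
    _ ≤ _ := by
        apply Nat.cast_le.2
        apply card_le_card
        intro d hd
        rw [mem_filter] at hd ⊢
        refine ⟨hd.1, fun F hF h0 => ?_⟩
        have h1 := hd.2 F hF h0
        unfold occurrences
        refine le_trans ?_ h1
        have hFk : F.card ≤ k := by
          have := card_le_card hF
          rwa [card_range] at this
        have h2 : Real.log H ^ F.card ≤ 2 ^ k * Real.log x ^ F.card := by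
          calc Real.log H ^ F.card ≤ (2 * Real.log x) ^ F.card := pow_le_pow_left₀ hlH0.le hlH1 _
            _ = 2 ^ F.card * Real.log x ^ F.card := mul_pow _ _ _
            _ ≤ 2 ^ k * Real.log x ^ F.card := by
                apply mul_le_mul_of_nonneg_right _ (by positivity)
                exact pow_le_pow_right₀ (by norm_num) hFk
        calc c / 2 ^ k * (y / Real.log x ^ F.card) = c * (y / (2 ^ k * Real.log x ^ F.card)) := by
              field_simp
          _ ≤ c * (H / Real.log H ^ F.card) := by gcongr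

/-- almost primes in every interval -/
theorem every (k r : ℕ) (θ : ℝ) (hθ : 0 < θ) (hθ1 : θ ≤ 1) (hr : 1 / 8 + 25 / (24 * θ) < (r : ℝ)) :
    ∃ (B : ℕ) (c : ℝ), 0 < c ∧ ∀ᶠ x : ℝ in atTop,
      Popular k B c x (x ^ θ) (almost r (x ^ (2 * θ / 9)) x (x ^ θ)) := by
  classical
  obtain ⟨σ, hσ⟩ : ∃ σ : ℝ, σ = (r - 1 / 8 - 25 / (24 * θ)) * (12 / 25) := ⟨_, rfl⟩
  have hσ0 : 0 < σ := by
    rw [hσ]
    apply mul_pos _ (by norm_num)
    linarith
  obtain ⟨S, hS⟩ : ∃ S : ℝ, S = 1 / θ + σ := ⟨_, rfl⟩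
  have h1θ : 1 ≤ 1 / θ := by
    rw [le_div_iff₀ hθ]
    linarith
  have hθS : θ * S = 1 + θ * σ := by
    rw [hS]
    field_simp
  have hSr : 9 / 8 + 25 / 24 * S < (r : ℝ) + 1 := by
    have e : 25 / (24 * θ) = 25 / 24 * (1 / θ) := by
      field_simp
    rw [e] at hσ hr
    rw [hS]
    rw [hσ]
    linarith
  obtain ⟨δ, hδ, H₀, hlong⟩ := Pool.Agent.L5helper4.DL.long r S (by linarith) hSr
  obtain ⟨B, c, hc, hrel⟩ := rel k θ (2 * θ / 9) (δ / 2) hθ hθ1 (by positivity) (by positivity)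
  refine ⟨B, c, hc, ?_⟩
  have tθ : Tendsto (fun x : ℝ => x ^ θ) atTop atTop := tendsto_rpow_atTop hθ
  have tH : Tendsto (fun x : ℝ => ⌊x ^ θ - 1⌋₊) atTop atTop :=
    tendsto_nat_floor_atTop.comp (tendsto_atTop_add_const_right _ _ tθ)
  filter_upwards [hrel, eventually_gt_atTop (3 : ℝ), tθ.eventually_ge_atTop 6,
    tH.eventually_ge_atTop H₀, (tendsto_rpow_atTop (show 0 < θ * σ by positivity)).eventually_ge_atTop
      ((2 : ℝ) ^ S), (tendsto_rpow_atTop (show 0 < 4 / 225 * θ by positivity)).eventually_ge_atTop 2]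
    with x hx hx3 hy6 hH0 hbig hbig2
  obtain ⟨y, hy⟩ : ∃ y, y = x ^ θ := ⟨_, rfl⟩
  rw [← hy] at hx hH0 hy6 ⊢
  have hx0 : 0 < x := by linarith
  have hx1 : 1 < x := by linarith
  have hlx : 0 < Real.log x := Real.log_pos hx1
  have hyx : y ≤ x := by
    rw [hy]
    calc x ^ θ ≤ x ^ (1 : ℝ) := Real.rpow_le_rpow_of_exponent_le hx1.le hθ1
      _ = x := Real.rpow_one _
  obtain ⟨H, hH⟩ : ∃ H, H = ⌊y - 1⌋₊ := ⟨_, rfl⟩
  rw [← hH] at hH0
  have hfl : (H : ℝ) ≤ y - 1 := by
    rw [hH]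
    exact Nat.floor_le (by linarith)
  have hfl2 : y - 1 < (H : ℝ) + 1 := by
    rw [hH]
    exact Nat.lt_floor_add_one (y - 1)
  have hHy : y / 2 ≤ H := by linarith
  have hHx : (H : ℝ) ≤ x := by linarith
  have hHp : (0 : ℝ) < H := by linarith
  have hlH0 : 0 < Real.log H := Real.log_pos (by linarith)
  have hlH1 : Real.log H ≤ Real.log x := Real.log_le_log hHp hHx
  have hw : x ^ (2 * θ / 9) ≤ (H : ℝ) ^ (6 / 25 : ℝ) := by
    have h1 : x ^ (2 * θ / 9) * 2 ≤ x ^ (6 / 25 * θ) := by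
      calc x ^ (2 * θ / 9) * 2 ≤ x ^ (2 * θ / 9) * x ^ (4 / 225 * θ) :=
            mul_le_mul_of_nonneg_left hbig2 (by positivity)
        _ = x ^ (6 / 25 * θ) := by
            rw [← Real.rpow_add hx0]
            congr 1
            ring
    have h2 : x ^ (6 / 25 * θ) = y ^ (6 / 25 : ℝ) := by
      rw [hy, ← Real.rpow_mul hx0.le]
      congr 1
      ring
    have h3 : y ^ (6 / 25 : ℝ) ≤ 2 * (H : ℝ) ^ (6 / 25 : ℝ) := by
      calc y ^ (6 / 25 : ℝ) ≤ (2 * (H : ℝ)) ^ (6 / 25 : ℝ) :=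
            Real.rpow_le_rpow (by linarith) (by linarith) (by norm_num)
        _ = 2 ^ (6 / 25 : ℝ) * (H : ℝ) ^ (6 / 25 : ℝ) := Real.mul_rpow (by norm_num) hHp.le
        _ ≤ 2 ^ (1 : ℝ) * (H : ℝ) ^ (6 / 25 : ℝ) := by
            apply mul_le_mul_of_nonneg_right _ (by positivity)
            exact Real.rpow_le_rpow_of_exponent_le (by norm_num) (by norm_num)
        _ = _ := by rw [Real.rpow_one]
    linarith
  have hNS : ((⌊x⌋₊ : ℕ) : ℝ) ≤ (H : ℝ) ^ S := by
    have h1 : ((⌊x⌋₊ : ℕ) : ℝ) ≤ x := Nat.floor_le hx0.le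
    have hS0 : 0 < S := by linarith
    have h2 : x * 2 ^ S ≤ y ^ S := by
      calc x * 2 ^ S ≤ x * x ^ (θ * σ) := mul_le_mul_of_nonneg_left hbig hx0.le
        _ = x ^ (1 + θ * σ) := by
            rw [Real.rpow_add hx0, Real.rpow_one]
        _ = y ^ S := by
            rw [hy, ← Real.rpow_mul hx0.le, hθS]
    have h3 : y ^ S ≤ (2 * (H : ℝ)) ^ S := Real.rpow_le_rpow (by linarith) (by linarith) hS0.le
    rw [Real.mul_rpow (by norm_num) hHp.le] at h3
    have h4 : x * 2 ^ S ≤ (H : ℝ) ^ S * 2 ^ S := by linarith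
    exact h1.trans (le_of_mul_le_mul_right h4 (by positivity))
  have hcnt := hlong H ⌊x⌋₊ hH0 hNS
  refine hx (almost r (x ^ (2 * θ / 9)) x y) (filter_subset _ _) ?_ ?_
  · intro n hn q hq hd
    unfold almost at hn
    rw [mem_filter] at hn
    exact hn.2.2 q hq hd
  · have h1 : (((Ioc ⌊x⌋₊ (⌊x⌋₊ + H)).filter (fun n => n.primeFactorsList.length ≤ r ∧
        ∀ q : ℕ, q.Prime → q ∣ n → (H : ℝ) ^ (6 / 25 : ℝ) ≤ q)).card : ℝ) ≤
        ((almost r (x ^ (2 * θ / 9)) x y).card : ℝ) := by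
      apply Nat.cast_le.2
      apply card_le_card
      intro n hn
      rw [mem_filter, mem_Ioc] at hn
      unfold almost
      rw [mem_filter, mem_between]
      refine ⟨⟨(Nat.floor_lt hx0.le).1 hn.1.1, ?_⟩, hn.2.1, fun q hq hd => hw.trans (hn.2.2 q hq hd)⟩
      have h2 : (n : ℝ) ≤ ((⌊x⌋₊ + H : ℕ) : ℝ) := by exact_mod_cast hn.1.2
      have h3 : ((⌊x⌋₊ : ℕ) : ℝ) ≤ x := Nat.floor_le hx0.le
      push_cast at h2
      linarith
    refine le_trans ?_ (hcnt.trans h1)
    calc δ / 2 * (y / Real.log x) = δ * ((y / 2) / Real.log x) := by ring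
      _ ≤ δ * (H / Real.log H) := by gcongr

open Classical in
/-- **Between `x` and `x + √x`.** -/
theorem result (k : ℕ) :
    (∀ θ κ δ : ℝ, 0 < θ → θ ≤ 1 → 0 < κ → 0 < δ → ∃ (B : ℕ) (c : ℝ), 0 < c ∧ ∀ᶠ x : ℝ in atTop,
      ∀ P ⊆ between x (x ^ θ), (∀ n ∈ P, ∀ q : ℕ, q.Prime → q ∣ n → x ^ κ ≤ q) →
      δ * (x ^ θ / Real.log x) ≤ P.card → Popular k B c x (x ^ θ) P) ∧
    (∃ (B : ℕ) (c : ℝ), 0 < c ∧ ∀ᶠ x : ℝ in atTop,
      Popular k B c x (Real.sqrt x) (almost 3 (x ^ (1 / 9 : ℝ)) x (Real.sqrt x))) ∧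
    ∀ (r : ℕ) (θ : ℝ), 0 < θ → θ ≤ 1 → 1 / 8 + 25 / (24 * θ) < (r : ℝ) →
      ∃ (B : ℕ) (c : ℝ), 0 < c ∧ ∀ᶠ x : ℝ in atTop,
        Popular k B c x (x ^ θ) (almost r (x ^ (2 * θ / 9)) x (x ^ θ)) := by
  refine ⟨fun θ κ δ h1 h2 h3 h4 => rel k θ κ δ h1 h2 h3 h4, ?_,
    fun r θ h1 h2 h3 => every k r θ h1 h2 h3⟩
  obtain ⟨B, c, hc, h⟩ := every k 3 (1 / 2) (by norm_num) (by norm_num) (by norm_num)
  refine ⟨B, c, hc, ?_⟩
  filter_upwards [h] with x hx
  rw [Real.sqrt_eq_rpow]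
  have e : (2 * (1 / 2) / 9 : ℝ) = 1 / 9 := by norm_num
  rw [e] at hx
  exact hx

end Pool.Agent.Results.MP_b8a134_nt.PopularDifferences
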