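import Pool.Agent.L5helper4.RG.One

set_option autoImplicit false

/-!
# Primes between `x` and `x + √x`: almost all of them are regular points

Let `θ > 0` and `z = x ^ (1 / r)`, `V = ∏ (1 - 1 / p)` over the primes `p ≤ z`, which has the order `1 / log x`. For
ALL intervals of length `Y` with `x ^ θ ≤ Y ≤ x`, for instance the intervals `(x, x + √x)` of Schinzel's question, and
ANY set `S` of integers without prime factors `≤ z`, for instance of primes, all but at most `ε Y V` of the elements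
`m` of `S` in the interval are regular: all intervals around `m` up to the length `Y` contain the right order of
elements of `S`, and `S` has an almost constant density on both sides of `m` up to the distance `2 ^ j` for all but a
bounded number of the scales `2 ^ j ≤ Y`.
-/

namespace Pool.Agent.Results.MP_b8a134_nt.RegularPoints

open Finset Filter

/-- The product of `1 - 1 / p` over the primes `p ≤ z`. -/
noncomputable def V (z : ℕ) : ℝ := ∏ p ∈ (Finset.range (z + 1)).filter Nat.Prime, (1 - 1 / (p : ℝ))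

open Classical in
/-- The number of elements of `S` in `(a, b]`. -/
noncomputable def count (S : Set ℕ) (a b : ℕ) : ℕ := ((Finset.Ioc a b).filter (fun m => m ∈ S)).card

/-- All intervals `(m - s, m + t]` with `s, t ≤ Y` of length at least `L / κ` contain between
`κ (s + t) / L` and `(s + t) / (κ L)` elements of `S`. -/
def RightOrder (S : Set ℕ) (L κ : ℝ) (Y m : ℕ) : Prop :=
  ∀ s t : ℕ, s ≤ Y → t ≤ Y → L ≤ κ * (s + t) →
    κ * (s + t) / L ≤ count S (m - s) (m + t) ∧ (count S (m - s) (m + t) : ℝ) ≤ (s + t) / (κ * L)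

/-- Up to `δ`, `S` has a constant density on both sides of `m` up to the distance `2 ^ j`. -/
def ConstantDensity (S : Set ℕ) (L κ δ : ℝ) (m j : ℕ) : Prop :=
  ∃ lam : ℝ, κ ≤ lam ∧ lam ≤ 1 / κ ∧ ∀ s t : ℕ, s ≤ 2 ^ j → t ≤ 2 ^ j →
    |(count S (m - s) (m + t) : ℝ) - lam * (s + t) / L| ≤ δ * 2 ^ j / L

open Classical in
/-- The number of the scales `L ≤ 2 ^ j ≤ Y` without this property. -/
noncomputable def badScales (S : Set ℕ) (L κ δ : ℝ) (Y m : ℕ) : ℕ :=
  ((Finset.range (Nat.log 2 Y + 1)).filter (fun j => L ≤ (2 : ℝ) ^ j ∧ ¬ ConstantDensity S L κ δ m j)).card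

/-- The elements of `S` that are not regular points of `S`. -/
def Irregular (S : Set ℕ) (L κ δ : ℝ) (M Y : ℕ) : Set ℕ :=
  {m | m ∈ S ∧ ¬ (RightOrder S L κ Y m ∧ badScales S L κ δ Y m ≤ M)}

/-- the integers strictly between `x` and `x + √x` -/
lemma interval (x : ℝ) (hx : 16 ≤ x) : ∃ u Y : ℕ, u = ⌊x⌋₊ ∧ √x / 2 ≤ Y ∧ (Y : ℝ) ≤ 2 * √x ∧
    ∀ m : ℕ, (x < m ∧ (m : ℝ) < x + √x) ↔ m ∈ Finset.Ioc u (u + Y) := by
  have h4 : (4 : ℝ) ≤ √x := by
    rw [show (4 : ℝ) = √16 by rw [show (16 : ℝ) = 4 ^ 2 by norm_num, Real.sqrt_sq (by norm_num)]]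
    exact Real.sqrt_le_sqrt hx
  have hx0 : 0 ≤ x := by linarith
  have a1 := Nat.floor_le hx0
  have a2 := Nat.lt_floor_add_one x
  have a3 := Nat.le_ceil (x + √x)
  have a4 := Nat.ceil_lt_add_one (by linarith : 0 ≤ x + √x)
  have a5 : ⌊x⌋₊ + 1 ≤ ⌈x + √x⌉₊ := by
    have : ((⌊x⌋₊ : ℕ) : ℝ) < (⌈x + √x⌉₊ : ℕ) := by linarith
    exact_mod_cast this
  obtain ⟨Y, hY⟩ : ∃ Y, ⌈x + √x⌉₊ = ⌊x⌋₊ + 1 + Y := ⟨_, (Nat.add_sub_cancel' a5).symm⟩
  have hYr : ((⌈x + √x⌉₊ : ℕ) : ℝ) = (⌊x⌋₊ : ℕ) + 1 + Y := by rw [hY]; push_cast; ring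
  refine ⟨⌊x⌋₊, Y, rfl, by linarith, by linarith, ?_⟩
  intro m
  rw [mem_Ioc, ← Nat.floor_lt hx0, ← Nat.lt_ceil, hY]
  omega

open Classical in
/-- **Regular points of arbitrary sets of primes between `x` and `x + √x`.** (1) A prime `> z` has no prime factor
`≤ z`.  For all `θ > 0` there is `r₀` such that for `r ≥ r₀` and `ε > 0` there is `κ > 0`, and for `δ > 0` there is
`M`, such that for all large `X`, `z = X ^ (1 / r)`, and EVERY set `S` of integers without prime factors `≤ z`: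
(2) for ALL intervals `(u, u + Y]` with `X ^ θ ≤ Y ≤ X`, `Y ≤ u` all but at most `ε Y V` of the elements of `S` in
`(u, u + Y]` are regular points of `S` (with `L = 1 / V`); (3) if `θ < 1 / 2`, for all real `X ≤ x ≤ X + 1` all but
at most `ε √x V` of the elements `m` of `S` with `x < m < x + √x` are regular points of `S` (with `L = 1 / V`),
with all intervals around `m` up to the length `√x / 2`. -/
theorem result :
    (∀ z p : ℕ, p.Prime → z < p → ∀ l : ℕ, l.Prime → l ≤ z → ¬ l ∣ p) ∧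
    ∀ θ : ℝ, 0 < θ →
    ∃ r0 : ℕ, 2 ≤ r0 ∧ ∀ r : ℕ, r0 ≤ r → ∀ ε : ℝ, 0 < ε → ∃ κ : ℝ, 0 < κ ∧
      ∀ δ : ℝ, 0 < δ → ∃ M : ℕ, ∀ᶠ X : ℕ in atTop, ∀ z : ℕ, z = ⌊(X : ℝ) ^ (1 / (r : ℝ))⌋₊ →
      ∀ S : Set ℕ, (∀ m ∈ S, ∀ p : ℕ, p.Prime → p ≤ z → ¬ p ∣ m) →
        (∀ u Y : ℕ, (X : ℝ) ^ θ ≤ Y → Y ≤ X → Y ≤ u →
          (count (Irregular S (1 / V z) κ δ M Y) u (u + Y) : ℝ) ≤ ε * (Y * V z)) ∧
        (θ < 1 / 2 → ∀ x : ℝ, (X : ℝ) ≤ x → x ≤ X + 1 → ∃ Y : ℕ, √x / 2 ≤ Y ∧
          (Set.ncard {m : ℕ | x < m ∧ (m : ℝ) < x + √x ∧ m ∈ Irregular S (1 / V z) κ δ M Y} : ℝ) ≤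
            ε * (√x * V z)) := by
  refine ⟨?_, ?_⟩
  · intro z p hp hz l hl hlz hd
    have := (Nat.prime_dvd_prime_iff_eq hl hp).1 hd
    omega
  · intro θ hθ
    obtain ⟨r0, hr0, h0⟩ := Pool.Agent.R490.Sg.regS 1 1 θ hθ
    refine ⟨r0, hr0, fun r hr ε hε => ?_⟩
    obtain ⟨κ, hκ, h1⟩ := h0 r hr 1 (ε / 2) one_pos (by positivity)
    refine ⟨κ, hκ, fun δ hδ => ?_⟩
    obtain ⟨M, h2⟩ := h1 δ hδ
    refine ⟨M, ?_⟩
    have hsq : ∀ᶠ X : ℕ in atTop, θ < 1 / 2 → 2 * (X : ℝ) ^ θ ≤ √(X : ℝ) := by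
      by_cases hθ2 : θ < 1 / 2
      · have h3 : Tendsto (fun X : ℕ => (X : ℝ) ^ (1 / 2 - θ)) atTop atTop :=
          (tendsto_rpow_atTop (by linarith)).comp tendsto_natCast_atTop_atTop
        filter_upwards [h3.eventually_ge_atTop 2, eventually_ge_atTop 1] with X hX hX1 _
        have hX0 : (0 : ℝ) < X := by exact_mod_cast hX1
        calc 2 * (X : ℝ) ^ θ ≤ (X : ℝ) ^ (1 / 2 - θ) * (X : ℝ) ^ θ :=
              mul_le_mul_of_nonneg_right hX (by positivity)
          _ = √(X : ℝ) := by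
              rw [← Real.rpow_add hX0, Real.sqrt_eq_rpow]
              congr 1
              ring
      · exact Eventually.of_forall (fun X h => absurd h hθ2)
    filter_upwards [h2, hsq, eventually_ge_atTop 16] with X hX hsX hX16
    intro z hz S hS
    have hVz := Pool.Agent.L5helper4.RG.De_X z
    have hV0 : 0 ≤ V z := by
      unfold V
      apply Finset.prod_nonneg
      intro p hp
      have h2 := (mem_filter.1 hp).2.two_le
      have h3 : (2 : ℝ) ≤ p := by exact_mod_cast h2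
      rw [sub_nonneg, div_le_one (by linarith)]
      linarith
    have key : ∀ u Y : ℕ, (X : ℝ) ^ θ ≤ Y → Y ≤ X → Y ≤ u →
          (count (Irregular S (1 / V z) κ δ M Y) u (u + Y) : ℝ) ≤ ε / 2 * (Y * V z) := by
      intro u Y hY hYX hYu
      have h3 := hX _ _ (Pool.Agent.L5helper4.RG.good_X (by omega : 1 ≤ X)) z hz
        (by rw [hVz, one_mul]; exact le_rfl) u Y hY hYX hYu S
        (fun m hm => (Pool.Agent.L5helper4.RG.Ro_X z m).2 (hS m hm))
      rw [hVz] at h3
      exact h3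
    refine ⟨fun u Y hY hYX hYu => (key u Y hY hYX hYu).trans ?_, ?_⟩
    · apply mul_le_mul_of_nonneg_right _ (by positivity)
      linarith
    · intro hθ2 x hx1 hx2
      have hX16r : (16 : ℝ) ≤ X := by exact_mod_cast hX16
      obtain ⟨u, Y, hu, hY1, hY2, hiff⟩ := interval x (by linarith)
      have hsx : √(X : ℝ) ≤ √x := Real.sqrt_le_sqrt hx1
      have e1 : (X : ℝ) ^ θ ≤ Y := by
        have := hsX hθ2
        linarith
      have e2 : Y ≤ X := by
        have h5 : √x ≤ √(X : ℝ) * (5 / 4) := by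
          rw [Real.sqrt_le_left (by positivity)]
          rw [mul_pow, Real.sq_sqrt (by positivity)]
          nlinarith
        have h6 : √(X : ℝ) * 4 ≤ X := by
          have h7 : (4 : ℝ) ≤ √(X : ℝ) := by
            rw [show (4 : ℝ) = √16 by rw [show (16 : ℝ) = 4 ^ 2 by norm_num, Real.sqrt_sq (by norm_num)]]
            exact Real.sqrt_le_sqrt hX16r
          calc √(X : ℝ) * 4 ≤ √(X : ℝ) * √(X : ℝ) := mul_le_mul_of_nonneg_left h7 (by positivity)
            _ = X := Real.mul_self_sqrt (by positivity)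
        have h8 : (Y : ℝ) ≤ X := by
          have h9 : 0 ≤ √(X : ℝ) := Real.sqrt_nonneg _
          linarith
        exact_mod_cast h8
      have e3 : Y ≤ u := by
        rw [hu]
        have : X ≤ ⌊x⌋₊ := Nat.le_floor hx1
        omega
      have h3 := key u Y e1 e2 e3
      refine ⟨Y, hY1, ?_⟩
      have e4 : Set.ncard {m : ℕ | x < m ∧ (m : ℝ) < x + √x ∧ m ∈ Irregular S (1 / V z) κ δ M Y} =
          count (Irregular S (1 / V z) κ δ M Y) u (u + Y) := by
        unfold count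
        rw [← Set.ncard_coe_finset]
        congr 1
        ext m
        rw [Set.mem_ofPred_eq, Finset.mem_coe, mem_filter, ← hiff m]
        tauto
      rw [e4]
      refine h3.trans ?_
      calc ε / 2 * (Y * V z) ≤ ε / 2 * ((2 * √x) * V z) := by gcongr
        _ = ε * (√x * V z) := by ring

end Pool.Agent.Results.MP_b8a134_nt.RegularPoints
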